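import Pool.Agent.helper55.ZI.Spec2

set_option autoImplicit false

namespace Pool.Agent.helper59.ZI

open Pool.Agent.ZI

universe u

section

variable {R : Type u} [Ring R] {S : ℕ → Subring R} (hS : Monotone S) {T : Type u}
  [AddCommGroup T] [Module R T] {s₀ : T} {m : ℕ → ℕ} {s : ℕ → T}

theorem TOW_step (hd : SeqData S hS s₀ m s) (k : ℕ) (r : R) (hr : r ∈ S (m k))
    (h0 : ∀ i ≤ k, r • s i = 0) : r • s (k + 1) = 0 := by
  obtain ⟨-, -, -, hk⟩ := hd
  obtain ⟨hmem, hm, ι, g, -, -, hs⟩ := hk k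
  have h1 := hs (fun i => ⟨s i, hmem i (Fin.is_le i)⟩) (fun i => rfl)
  rw [h1]
  have h2 : (rinc hS hm ⟨r, hr⟩) • (∑ i : Fin (k + 1), g i ⟨s i, hmem i (Fin.is_le i)⟩) = 0 := by
    rw [Finset.smul_sum]
    refine Finset.sum_eq_zero (fun i _ => ?_)
    rw [← map_smulₛₗ]
    have h3 : (⟨r, hr⟩ : S (m k)) • (⟨s i, hmem i (Fin.is_le i)⟩ : VV S s₀ (m k)) = 0 := by
      apply Subtype.ext
      exact h0 i (Fin.is_le i)
    rw [h3, map_zero]
  have h4 := congrArg (fun v : VV S s₀ (m (k + 1)) => (v : T)) h2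
  exact h4

theorem TOW_all (hd : SeqData S hS s₀ m s) (k : ℕ) (r : R) (hr : r ∈ S (m k))
    (h0 : ∀ i ≤ k, r • s i = 0) : ∀ j, r • s j = 0 := by
  have key : ∀ n, ∀ j ≤ k + n, r • s j = 0 := by
    intro n
    induction n with
    | zero => exact h0
    | succ n ih =>
      intro j hj
      rcases Nat.lt_or_ge j (k + n + 1) with h | h
      · exact ih j (by omega)
      · have hj' : j = k + n + 1 := by omega
        subst hj'
        exact TOW_step hS hd (k + n) r (hS (hd.2.1.monotone (by omega)) hr) ih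
  exact fun j => key j j (by omega)

/-- The tuple `(r • s 0, ..., r • s k)`. -/
def TOW_y (hd : SeqData S hS s₀ m s) (k : ℕ) (r : R) (hr : r ∈ S (m k)) :
    Fin (k + 1) → VV S s₀ (m k) :=
  fun i => (⟨r, hr⟩ : S (m k)) • ⟨s i, (hd.2.2.2 k).1 i (Fin.is_le i)⟩

theorem TOW_y_coe (hd : SeqData S hS s₀ m s) (k : ℕ) (r : R) (hr : r ∈ S (m k)) (i : Fin (k + 1)) :
    ((TOW_y hS hd k r hr i : VV S s₀ (m k)) : T) = r • s i := rfl

end

theorem TOW_small (A V : Type u) [Ring A] [AddCommGroup V] [Module A V] [IsSimpleModule A V] {k : ℕ}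
    (y : Fin (k + 1) → V) (hy : y ≠ 0) : Small A y k := by
  obtain ⟨i0, hi0⟩ : ∃ i, y i ≠ (0 : Fin (k + 1) → V) i := Function.ne_iff.1 hy
  have hi0' : y i0 ≠ 0 := hi0
  refine ⟨Finset.univ.erase i0, ?_, ?_⟩
  · rw [Finset.card_erase_of_mem (Finset.mem_univ _), Finset.card_univ, Fintype.card_fin]
    omega
  intro l hl hsum
  have hother : ∀ i, i ≠ i0 → l i = 0 :=
    fun i hi => hl i (Finset.mem_erase.2 ⟨hi, Finset.mem_univ _⟩)
  have h1 : l i0 (y i0) = 0 := by
    rw [Finset.sum_eq_single i0] at hsum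
    · exact hsum
    · intro i _ hi
      rw [hother i hi]
      rfl
    · intro h
      exact absurd (Finset.mem_univ _) h
  have h2 : l i0 = 0 := by
    rcases LinearMap.injective_or_eq_zero (l i0) with h | h
    · exact absurd (h (h1.trans (map_zero _).symm)) hi0'
    · exact h
  intro i
  by_cases hi : i = i0
  · rw [hi]
    exact h2
  · exact hother i hi

section

variable {R : Type u} [Ring R] {S : ℕ → Subring R} (hS : Monotone S) {T : Type u}
  [AddCommGroup T] [Module R T] {s₀ : T} {m : ℕ → ℕ} {s : ℕ → T}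

/-- Two nonzero elements of `R X` have a common nonzero multiple. -/
theorem TOW_common (hSML : SML_stmt.{u}) (hMEE : MEE_stmt.{u}) (hcov : ∀ r : R, ∃ n, r ∈ S n)
    (hpath : Path S s₀) (hd : SeqData S hS s₀ m s) (r r' : R) (hr : ∃ j, r • s j ≠ 0)
    (hr' : ∃ j, r' • s j ≠ 0) :
    ∃ c c' : R, (∀ j, c • r • s j = c' • r' • s j) ∧ ∃ j, c • r • s j ≠ 0 := by
  obtain ⟨n1, hn1⟩ := hcov r
  obtain ⟨n2, hn2⟩ := hcov r'
  set k := max n1 n2 with hk
  have hkm : k ≤ m k := hd.2.1.le_apply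
  have hrk : r ∈ S (m k) := hS ((le_max_left n1 n2).trans hkm) hn1
  have hrk' : r' ∈ S (m k) := hS ((le_max_right n1 n2).trans hkm) hn2
  have hsk : IsSimpleModule (S (m k)) (VV S s₀ (m k)) := hpath.1 (m k)
  have hsk2 : IsSimpleModule (S (m (2 * k))) (VV S s₀ (m (2 * k))) := hpath.1 (m (2 * k))
  have hmk : m k ≤ m (2 * k) := hd.2.1.monotone (by omega)
  have hsm : ∀ q : R, (hq : q ∈ S (m k)) → (∃ j, q • s j ≠ 0) →
      Small (S (m (2 * k))) (TOW_y hS hd (2 * k) q (hS hmk hq)) k := by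
    intro q hq hq0
    have hy : TOW_y hS hd k q hq ≠ 0 := by
      intro h
      obtain ⟨j, hj⟩ := hq0
      apply hj
      refine TOW_all hS hd k q hq (fun i hi => ?_) j
      have h1 := congrFun h ⟨i, Nat.lt_succ_of_le hi⟩
      have h2 := congrArg (fun v : VV S s₀ (m k) => (v : T)) h1
      exact h2
    exact hSML R S hS T s₀ hpath m s hd k k q hq (TOW_y hS hd k q hq) (fun i => rfl) hy
      (TOW_small (S (m k)) (VV S s₀ (m k)) _ hy) (2 * k) (by omega) _ (fun i => rfl)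
  obtain ⟨a, a', h1, i, h2⟩ := hMEE (S (m (2 * k))) (VV S s₀ (m (2 * k))) (2 * k + 1) k
    (TOW_y hS hd (2 * k) r (hS hmk hrk)) (TOW_y hS hd (2 * k) r' (hS hmk hrk')) (by omega)
    (hsm r hrk hr) (hsm r' hrk' hr')
  refine ⟨(a : R), (a' : R), ?_, (i : ℕ), ?_⟩
  · have hz : ∀ i ≤ 2 * k, ((a : R) * r - (a' : R) * r') • s i = 0 := by
      intro i hi
      have h3 := congrArg (fun v : VV S s₀ (m (2 * k)) => (v : T)) (h1 ⟨i, Nat.lt_succ_of_le hi⟩)
      have h4 : (a : R) • r • s i = (a' : R) • r' • s i := h3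
      rw [sub_smul, mul_smul, mul_smul, h4, sub_self]
    have hmem : (a : R) * r - (a' : R) * r' ∈ S (m (2 * k)) :=
      (S (m (2 * k))).sub_mem ((S (m (2 * k))).mul_mem a.2 (hS hmk hrk))
        ((S (m (2 * k))).mul_mem a'.2 (hS hmk hrk'))
    intro j
    have h5 := TOW_all hS hd (2 * k) _ hmem hz j
    rw [sub_smul, mul_smul, mul_smul] at h5
    exact sub_eq_zero.1 h5
  · intro h
    apply h2
    apply Subtype.ext
    exact h

/-- For every `j` there is an element of `R X` which vanishes at `j` and is not zero. -/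
theorem TOW_kill (hSML : SML_stmt.{u}) (hDEN : DEN_stmt.{u})
    (hpath : Path S s₀) (hd : SeqData S hS s₀ m s) (hs₀ : s₀ ≠ 0) (j : ℕ) :
    ∃ r : R, r • s j = 0 ∧ ∃ i, r • s i ≠ 0 := by
  have hs0 : s 0 = s₀ := hd.2.2.1
  set k := max j 1 with hk
  have hsk0 : IsSimpleModule (S (m 0)) (VV S s₀ (m 0)) := hpath.1 (m 0)
  have hsk : IsSimpleModule (S (m k)) (VV S s₀ (m k)) := hpath.1 (m k)
  have hone0 : (1 : R) ∈ S (m 0) := (S (m 0)).one_mem
  have hone : (1 : R) ∈ S (m k) := (S (m k)).one_mem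
  have hy0 : TOW_y hS hd 0 1 hone0 ≠ 0 := by
    intro h
    apply hs₀
    have h1 := congrFun h 0
    have h2 := congrArg (fun v : VV S s₀ (m 0) => (v : T)) h1
    have h3 : (1 : R) • s 0 = 0 := h2
    rw [one_smul, hs0] at h3
    exact h3
  have hsm : Small (S (m k)) (TOW_y hS hd k 1 hone) 0 :=
    hSML R S hS T s₀ hpath m s hd 0 0 1 hone0 (TOW_y hS hd 0 1 hone0) (fun i => rfl) hy0
      (TOW_small (S (m 0)) (VV S s₀ (m 0)) _ hy0) k (Nat.zero_le _) _ (fun i => rfl)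
  obtain ⟨J, hJ, hrel⟩ := hsm
  have hJ0 : J = ∅ := Finset.card_eq_zero.1 (Nat.le_zero.1 hJ)
  subst hJ0
  have hrel' : ∀ l : Fin (k + 1) → (VV S s₀ (m k) →ₗ[S (m k)] VV S s₀ (m k)),
      ∑ i, l i (TOW_y hS hd k 1 hone i) = 0 → ∀ i, l i = 0 :=
    fun l hl => hrel l (fun j hj => absurd hj (Finset.notMem_empty j)) hl
  -- an index different from `j`
  obtain ⟨i1, hi1j, hi1k⟩ : ∃ i1 : ℕ, i1 ≠ j ∧ i1 ≤ k := by
    by_cases h : j = 0
    · exact ⟨1, by omega, le_max_right _ _⟩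
    · exact ⟨0, fun h' => h h'.symm, Nat.zero_le _⟩
  have hs₀mem : s₀ ∈ VV S s₀ (m k) := Submodule.subset_span rfl
  obtain ⟨a, ha⟩ := hDEN (S (m k)) (VV S s₀ (m k)) (k + 1) (TOW_y hS hd k 1 hone)
    (fun i => if (i : ℕ) = i1 then ⟨s₀, hs₀mem⟩ else 0) (by
      intro l hl
      have h0 := hrel' l hl
      refine Finset.sum_eq_zero (fun i _ => ?_)
      rw [h0 i]
      rfl)
  refine ⟨(a : R), ?_, i1, ?_⟩
  · have h1 := ha ⟨j, Nat.lt_succ_of_le (le_max_left _ _)⟩
    rw [if_neg (fun h => hi1j h.symm)] at h1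
    have h2 := congrArg (fun v : VV S s₀ (m k) => (v : T)) h1
    have h3 : (a : R) • (1 : R) • s j = 0 := h2
    rw [one_smul] at h3
    exact h3
  · have h1 := ha ⟨i1, Nat.lt_succ_of_le hi1k⟩
    rw [if_pos rfl] at h1
    have h2 := congrArg (fun v : VV S s₀ (m k) => (v : T)) h1
    have h3 : (a : R) • (1 : R) • s i1 = s₀ := h2
    rw [one_smul] at h3
    rw [h3]
    exact hs₀

end

theorem TOW (hSEQ : SEQ_stmt.{u}) (hSML : SML_stmt.{u}) (hMEE : MEE_stmt.{u})
    (hDEN : DEN_stmt.{u}) : TOW_stmt.{u} := by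
  intro R _ S hS hcov T _ _ s₀ e hs₀ he hpath
  obtain ⟨m, s, hd⟩ := hSEQ R S hS T s₀ hpath
  have hs0 : s 0 = s₀ := hd.2.2.1
  set N : Submodule R (ℕ → T) := Submodule.span R {s} with hN
  have hsN : s ∈ N := Submodule.subset_span rfl
  have hrep : ∀ x : N, ∃ r : R, (x : ℕ → T) = r • s := by
    intro x
    obtain ⟨r, hr⟩ := Submodule.mem_span_singleton.1 x.2
    exact ⟨r, hr.symm⟩
  have hne : ∀ x : N, x ≠ 0 → ∀ r : R, (x : ℕ → T) = r • s → ∃ j, r • s j ≠ 0 := by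
    intro x hx r hr
    by_contra hcon
    push Not at hcon
    apply hx
    apply Subtype.ext
    rw [hr]
    funext j
    exact hcon j
  -- common multiples
  have hcm : ∀ x y : N, x ≠ 0 → y ≠ 0 → ∃ c c' : R, c • x = c' • y ∧ c • x ≠ 0 := by
    intro x y hx hy
    obtain ⟨r, hr⟩ := hrep x
    obtain ⟨r', hr'⟩ := hrep y
    obtain ⟨c, c', h1, j, h2⟩ := TOW_common hS hSML hMEE hcov hpath hd r r' (hne x hx r hr)
      (hne y hy r' hr')
    refine ⟨c, c', ?_, ?_⟩
    · apply Subtype.ext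
      show c • (x : ℕ → T) = c' • (y : ℕ → T)
      rw [hr, hr']
      funext j
      exact h1 j
    · intro h
      apply h2
      have h3 : c • (x : ℕ → T) = 0 := congrArg (fun v : N => (v : ℕ → T)) h
      rw [hr] at h3
      exact congrFun h3 j
  have hX : (⟨s, hsN⟩ : N) ≠ 0 := by
    intro h
    apply hs₀
    rw [← hs0]
    have h1 : s = 0 := congrArg (fun v : N => (v : ℕ → T)) h
    rw [h1]
    rfl
  refine ⟨N, inferInstance, inferInstance, ⟨⟨⟨⟨s, hsN⟩, 0, hX⟩⟩, ?_⟩, ?_, ⟨s, hsN⟩, ?_⟩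
  · intro A B hA hB hAB
    obtain ⟨x, hxA, hx0⟩ := Submodule.exists_mem_ne_zero_of_ne_bot hA
    obtain ⟨y, hyB, hy0⟩ := Submodule.exists_mem_ne_zero_of_ne_bot hB
    obtain ⟨c, c', h1, h2⟩ := hcm x y hx0 hy0
    apply h2
    have h3 : c • x ∈ A ⊓ B := ⟨A.smul_mem c hxA, h1 ▸ B.smul_mem c' hyB⟩
    rw [hAB] at h3
    exact (Submodule.mem_bot R).1 h3
  · intro B hB
    have := hB
    have : Nontrivial B := IsSimpleModule.nontrivial R B
    have hBne : B ≠ ⊥ := (Submodule.nontrivial_iff_ne_bot).1 inferInstance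
    obtain ⟨y, hyB, hy0⟩ := Submodule.exists_mem_ne_zero_of_ne_bot hBne
    obtain ⟨r, hr⟩ := hrep y
    obtain ⟨j, hj⟩ := hne y hy0 r hr
    obtain ⟨r', hr'0, hr'1⟩ := TOW_kill hS hSML hDEN hpath hd hs₀ j
    set z : N := ⟨r' • s, N.smul_mem r' hsN⟩ with hz
    have hz0 : z ≠ 0 := by
      intro h
      obtain ⟨i, hi⟩ := hr'1
      apply hi
      have h1 : r' • s = 0 := congrArg (fun v : N => (v : ℕ → T)) h
      exact congrFun h1 i
    obtain ⟨c, c', h1, h2⟩ := hcm y z hy0 hz0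
    -- `c • y` generates `B`
    have hcy : c • y ∈ B := B.smul_mem c hyB
    have hspan : Submodule.span R {(⟨c • y, hcy⟩ : B)} = ⊤ := by
      rcases eq_bot_or_eq_top (Submodule.span R {(⟨c • y, hcy⟩ : B)}) with h | h
      · exfalso
        apply h2
        have h3 : (⟨c • y, hcy⟩ : B) ∈ Submodule.span R {(⟨c • y, hcy⟩ : B)} :=
          Submodule.subset_span rfl
        rw [h] at h3
        have h4 := (Submodule.mem_bot R).1 h3
        exact congrArg (fun v : B => (v : N)) h4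
      · exact h
    have hymem : (⟨y, hyB⟩ : B) ∈ Submodule.span R {(⟨c • y, hcy⟩ : B)} := by
      rw [hspan]
      exact Submodule.mem_top
    obtain ⟨q, hq⟩ := Submodule.mem_span_singleton.1 hymem
    have h5 : q • (c • y) = y := congrArg (fun v : B => (v : N)) hq
    apply hj
    have h6 : (y : ℕ → T) j = 0 := by
      rw [← h5, h1]
      show q • c' • (r' • s j) = 0
      rw [hr'0, smul_zero, smul_zero]
    rw [hr] at h6
    exact h6
  · intro h
    apply hs₀
    have h1 : e • s = 0 := congrArg (fun v : N => (v : ℕ → T)) h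
    have h2 : e • s 0 = 0 := congrFun h1 0
    rw [hs0, he] at h2
    exact h2

end Pool.Agent.helper59.ZI
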